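import Pool.Agent.Helper21.D2.Stmts
import Pool.Agent.Helper82.AHS.Ten

/-!
# WT0: Hodge tensors of type `(m, n)`, `m ≠ n`, are zero if the weight is not zero
-/

set_option autoImplicit false

namespace Pool.Agent.Helper21.TH

open Matrix Pool.Agent.Helper82.AHS

theorem h6_dr_one {r : ℕ} (m : ℕ) : dr m (1 : Matrix (Fin r) (Fin r) ℂ) = (m : ℂ) • 1 := by
  unfold dr
  have h1 : ∀ a : Fin m, pwf (Function.update (fun _ => (1 : Matrix (Fin r) (Fin r) ℂ)) a 1) =
      (1 : T r m m ℂ) := by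
    intro a
    rw [Function.update_eq_self_iff.mpr rfl]
    ext i j
    show ∏ b, (1 : Matrix (Fin r) (Fin r) ℂ) (i b) (j b) = _
    by_cases hij : i = j
    · subst hij
      simp
    · obtain ⟨b, hb⟩ := Function.ne_iff.mp hij
      rw [Matrix.one_apply_ne hij]
      exact Finset.prod_eq_zero (Finset.mem_univ b) (Matrix.one_apply_ne hb)
  rw [Finset.sum_congr rfl fun a _ => h1 a, Finset.sum_const, Finset.card_univ, Fintype.card_fin,
    Nat.cast_smul_eq_nsmul]

theorem st_WT0 : ST_WT0 := by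
  intro r m n V w t hw hw0 hmn ht
  have h1 : dr m V.D * up ℂ t = up ℂ t * dr n V.D := ht
  -- the complex conjugate
  have hup : (up ℂ t).map (starRingEnd ℂ) = up ℂ t := by
    ext i j
    simp [up]
  have h2 : dr m (V.D.map (starRingEnd ℂ)) * up ℂ t = up ℂ t * dr n (V.D.map (starRingEnd ℂ)) := by
    have h3 := congrArg (fun X : T r m n ℂ => X.map (starRingEnd ℂ)) h1
    beta_reduce at h3
    rw [Matrix.map_mul, Matrix.map_mul, hup, dr_map, dr_map] at h3
    exact h3
  have hD : V.D + V.D.map (starRingEnd ℂ) = (w : ℂ) • 1 := by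
    have h3 : V.D.map (starRingEnd ℂ) = _ := V.conj
    rw [h3]
    unfold HS.D
    rw [← Matrix.add_mul, ← Matrix.mul_add, Matrix.diagonal_add]
    have h4 : (fun i => (V.p i : ℂ) + (V.q i : ℂ)) = fun _ => (w : ℂ) := by
      funext i
      rw [← hw i]
      push_cast
      rfl
    rw [h4]
    have h5 : diagonal (fun _ : Fin r => (w : ℂ)) = (w : ℂ) • (1 : Matrix (Fin r) (Fin r) ℂ) := by
      rw [← Matrix.smul_one_eq_diagonal]
    rw [h5, Matrix.mul_smul, Matrix.mul_one, Matrix.smul_mul, Units.mul_inv]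
  have h3 : dr m ((w : ℂ) • (1 : Matrix (Fin r) (Fin r) ℂ)) * up ℂ t =
      up ℂ t * dr n ((w : ℂ) • (1 : Matrix (Fin r) (Fin r) ℂ)) := by
    rw [← hD, dr_add, dr_add, Matrix.add_mul, Matrix.mul_add, h1, h2]
  rw [dr_smul, dr_smul, h6_dr_one, h6_dr_one, Matrix.smul_mul, Matrix.smul_mul, Matrix.one_mul,
    Matrix.mul_smul, Matrix.mul_smul, Matrix.mul_one] at h3
  ext i j
  have h4 := congrFun (congrFun h3 i) j
  simp only [Matrix.smul_apply, smul_eq_mul] at h4
  have hwc : (w : ℂ) ≠ 0 := by exact_mod_cast hw0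
  have h5 : ((m : ℂ) - n) * up ℂ t i j = 0 := by
    have h6 := mul_left_cancel₀ hwc h4
    linear_combination h6
  have h6 : (m : ℂ) - n ≠ 0 := by
    rw [sub_ne_zero]
    exact_mod_cast hmn
  have h7 : up ℂ t i j = 0 := (mul_eq_zero.mp h5).resolve_left h6
  have h8 : ((t i j : ℚ) : ℂ) = 0 := by
    simpa [up] using h7
  have h9 : t i j = 0 := by exact_mod_cast h8
  rw [h9]
  rfl

end Pool.Agent.Helper21.TH
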